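import Mathlib

open Finset

namespace Pool.Agent.Results.MP_0b6044_an.Norm

/-- Coefficient index set of the `n`-fold tensor power of `ℓ²`. -/
abbrev Idx (n : ℕ) := Fin n → ℕ

/-- The tensor product of shift powers: factor `i` is `S ^ (k i)` if `k i > 0` and
`(S*) ^ (-k i)` if `k i < 0`, acting on coefficient functions. -/
noncomputable def shift {n : ℕ} (k : Fin n → ℤ) (f : Idx n → ℂ) (x : Idx n) : ℂ :=
  if ∀ i, k i ≤ (x i : ℤ) then f (fun i => ((x i : ℤ) - k i).toNat) else 0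

/-- The average over all orderings of the factors. -/
noncomputable def avg {n : ℕ} (k : Fin n → ℤ) (f : Idx n → ℂ) (x : Idx n) : ℂ :=
  (1 / (n.factorial : ℂ)) * ∑ p : Equiv.Perm (Fin n), shift (fun i => k (p i)) f x

/-- Squared `ℓ²` norm. -/
noncomputable def sqn {n : ℕ} (f : Idx n → ℂ) : ℝ := ∑' x, ‖f x‖ ^ 2

/-- The symbol of the averaged operator at a point `w` of the torus. -/
noncomputable def symb {n : ℕ} (k : Fin n → ℤ) (w : Fin n → ℂ) : ℂ :=
  (1 / (n.factorial : ℂ)) * ∑ p : Equiv.Perm (Fin n), ∏ i, w i ^ k (p i)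

lemma shift_le {n : ℕ} (k : Fin n → ℤ) (f : Idx n → ℂ) (hf : Summable fun x => ‖f x‖ ^ 2)
    (s : Finset (Idx n)) : ∑ x ∈ s, ‖shift k f x‖ ^ 2 ≤ sqn f := by
  classical
  let φ : Idx n → Idx n := fun x i => ((x i : ℤ) - k i).toNat
  have h1 : ∑ x ∈ s, ‖shift k f x‖ ^ 2
      = ∑ x ∈ s.filter (fun x => ∀ i, k i ≤ (x i : ℤ)), ‖f (φ x)‖ ^ 2 := by
    rw [Finset.sum_filter]
    refine Finset.sum_congr rfl fun x _ => ?_
    unfold shift
    split_ifs <;> simp [φ]
  have h2 : Set.InjOn φ (s.filter (fun x => ∀ i, k i ≤ (x i : ℤ))) := by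
    intro x hx y hy hxy
    have hx' := (Finset.mem_filter.1 (Finset.mem_coe.1 hx)).2
    have hy' := (Finset.mem_filter.1 (Finset.mem_coe.1 hy)).2
    funext i
    have := congrFun hxy i
    have a := hx' i
    have b := hy' i
    simp only [φ] at this
    omega
  rw [h1, ← Finset.sum_image (f := fun y => ‖f y‖ ^ 2) h2]
  exact hf.sum_le_tsum _ (fun _ _ => by positivity)

lemma avg_pt {n : ℕ} (k : Fin n → ℤ) (f : Idx n → ℂ) (x : Idx n) :
    ‖avg k f x‖ ^ 2 ≤ (1 / (n.factorial : ℝ)) *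
      ∑ p : Equiv.Perm (Fin n), ‖shift (fun i => k (p i)) f x‖ ^ 2 := by
  have hN : (0 : ℝ) < (n.factorial : ℝ) := by exact_mod_cast n.factorial_pos
  have hc : ((Finset.univ : Finset (Equiv.Perm (Fin n))).card : ℝ) = n.factorial := by
    simp [Fintype.card_perm]
  have a : ‖avg k f x‖ ≤ (1 / (n.factorial : ℝ)) *
      ∑ p : Equiv.Perm (Fin n), ‖shift (fun i => k (p i)) f x‖ := by
    unfold avg
    rw [norm_mul]
    have : ‖(1 / (n.factorial : ℂ))‖ = 1 / (n.factorial : ℝ) := by simp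
    rw [this]
    exact mul_le_mul_of_nonneg_left (norm_sum_le _ _) (by positivity)
  have b := sq_sum_le_card_mul_sum_sq (s := (Finset.univ : Finset (Equiv.Perm (Fin n))))
    (f := fun p => ‖shift (fun i => k (p i)) f x‖)
  rw [hc] at b
  calc ‖avg k f x‖ ^ 2 ≤ ((1 / (n.factorial : ℝ)) *
      ∑ p : Equiv.Perm (Fin n), ‖shift (fun i => k (p i)) f x‖) ^ 2 :=
        pow_le_pow_left₀ (norm_nonneg _) a 2
    _ = (1 / (n.factorial : ℝ)) ^ 2 *
      (∑ p : Equiv.Perm (Fin n), ‖shift (fun i => k (p i)) f x‖) ^ 2 := by ring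
    _ ≤ (1 / (n.factorial : ℝ)) ^ 2 * (n.factorial *
      ∑ p : Equiv.Perm (Fin n), ‖shift (fun i => k (p i)) f x‖ ^ 2) :=
        mul_le_mul_of_nonneg_left b (by positivity)
    _ = _ := by field_simp

lemma avg_le' {n : ℕ} (k : Fin n → ℤ) (f : Idx n → ℂ) (s : Finset (Idx n)) (B : ℝ)
    (hB : ∀ p : Equiv.Perm (Fin n), ∑ x ∈ s, ‖shift (fun i => k (p i)) f x‖ ^ 2 ≤ B) :
    ∑ x ∈ s, ‖avg k f x‖ ^ 2 ≤ B := by
  have hN : (0 : ℝ) < (n.factorial : ℝ) := by exact_mod_cast n.factorial_pos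
  have hc : ((Finset.univ : Finset (Equiv.Perm (Fin n))).card : ℝ) = n.factorial := by
    simp [Fintype.card_perm]
  have h1 := avg_pt k f
  calc ∑ x ∈ s, ‖avg k f x‖ ^ 2 ≤ ∑ x ∈ s, (1 / (n.factorial : ℝ)) *
      ∑ p : Equiv.Perm (Fin n), ‖shift (fun i => k (p i)) f x‖ ^ 2 :=
        Finset.sum_le_sum fun x _ => h1 x
    _ = (1 / (n.factorial : ℝ)) *
      ∑ p : Equiv.Perm (Fin n), ∑ x ∈ s, ‖shift (fun i => k (p i)) f x‖ ^ 2 := by
        rw [← Finset.mul_sum, Finset.sum_comm]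
    _ ≤ (1 / (n.factorial : ℝ)) * ∑ _p : Equiv.Perm (Fin n), B :=
        mul_le_mul_of_nonneg_left (Finset.sum_le_sum fun p _ => hB p)
          (by positivity)
    _ = B := by
        rw [Finset.sum_const, nsmul_eq_mul, hc]; field_simp

lemma avg_le {n : ℕ} (k : Fin n → ℤ) (f : Idx n → ℂ) (hf : Summable fun x => ‖f x‖ ^ 2)
    (s : Finset (Idx n)) : ∑ x ∈ s, ‖avg k f x‖ ^ 2 ≤ sqn f :=
  avg_le' k f s _ fun _ => shift_le _ f hf s

lemma avg_summable {n : ℕ} (k : Fin n → ℤ) (f : Idx n → ℂ)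
    (hf : Summable fun x => ‖f x‖ ^ 2) : Summable fun x => ‖avg k f x‖ ^ 2 :=
  summable_of_sum_le (fun _ => by positivity) (avg_le k f hf)

/-- Points with block vector in `S` and residues in `R`. -/
def X {n : ℕ} (L : ℕ) (S : Finset (Idx n)) (R : Finset ℕ) : Finset (Idx n) :=
  (S ×ˢ Fintype.piFinset (fun _ : Fin n => R)).image (fun p i => L * p.1 i + p.2 i)

lemma sum_X {n : ℕ} (L : ℕ) (S : Finset (Idx n)) (R : Finset ℕ) (hR : ∀ r ∈ R, r < L)
    (F : Idx n → ℂ) :
    ∑ x ∈ X L S R, ‖F (fun i => x i / L)‖ ^ 2 = (R.card : ℝ) ^ n * ∑ y ∈ S, ‖F y‖ ^ 2 := by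
  have key : ∀ a r : ℕ, r < L → (L * a + r) / L = a := by
    intro a r h
    rw [Nat.mul_add_div (by omega), Nat.div_eq_of_lt h, add_zero]
  unfold X
  rw [Finset.sum_image]
  · rw [Finset.sum_product, Finset.mul_sum]
    refine Finset.sum_congr rfl fun y _ => ?_
    have : ∀ r ∈ Fintype.piFinset (fun _ : Fin n => R),
        ‖F (fun i => (L * y i + r i) / L)‖ ^ 2 = ‖F y‖ ^ 2 := by
      intro r hr
      have : (fun i => (L * y i + r i) / L) = y := by
        funext i
        exact key _ _ (hR _ (Fintype.mem_piFinset.1 hr i))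
      rw [this]
    rw [Finset.sum_congr rfl this, Finset.sum_const, nsmul_eq_mul]
    simp [Fintype.card_piFinset]
  · intro p hp q hq hpq
    have hp2 := Fintype.mem_piFinset.1 (Finset.mem_product.1 (Finset.mem_coe.1 hp)).2
    have hq2 := Fintype.mem_piFinset.1 (Finset.mem_product.1 (Finset.mem_coe.1 hq)).2
    have e1 : p.1 = q.1 := by
      funext i
      have h := congrFun hpq i
      simp only at h
      rw [← key (p.1 i) _ (hR _ (hp2 i)), h, key _ _ (hR _ (hq2 i))]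
    refine Prod.ext e1 ?_
    funext i
    have h := congrFun hpq i
    simp only [e1] at h
    omega

lemma lower {n : ℕ} (k : Fin n → ℤ) (S : Finset (Idx n)) (F : Idx n → ℂ)
    (hS : ∀ y, y ∉ S → F y = 0) (hW : 0 < ∑ y ∈ S, ‖F y‖ ^ 2) (c : ℝ) (hc : c < 1) :
    ∃ L : ℕ, (Summable fun x : Idx n => ‖F (fun i => x i / L)‖ ^ 2) ∧
      0 < sqn (fun x : Idx n => F (fun i => x i / L)) ∧
      c * sqn (fun x : Idx n => F (fun i => x i / L)) ≤
        sqn (avg k (fun x : Idx n => F (fun i => x i / L))) := by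
  classical
  obtain ⟨K, hK⟩ : ∃ K : ℕ, ∀ i, (k i).natAbs ≤ K :=
    ⟨∑ i, (k i).natAbs, fun i => Finset.single_le_sum (f := fun i => (k i).natAbs)
      (fun _ _ => Nat.zero_le _) (Finset.mem_univ i)⟩
  obtain ⟨m, hm⟩ := exists_nat_gt (2 * n * K / (1 - c))
  have hc1 : 0 < 1 - c := by linarith
  have hm0 : (0 : ℝ) < m := lt_of_le_of_lt (by positivity) hm
  have hm0' : 0 < m := by exact_mod_cast hm0
  have hm1 : 2 * n * K < m * (1 - c) := by rwa [div_lt_iff₀ hc1] at hm
  set L := 2 * K + m with hL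
  have hL0 : 0 < L := by omega
  have hLr : (L : ℝ) = 2 * K + m := by simp [hL]
  have hLr0 : (0 : ℝ) < L := by exact_mod_cast hL0
  have hz : ∀ x : Idx n, x ∉ X L S (range L) → ‖F (fun i => x i / L)‖ ^ 2 = 0 := by
    intro x hx
    by_cases h : (fun i => x i / L) ∈ S
    · exfalso
      apply hx
      refine Finset.mem_image.2 ⟨((fun i => x i / L), (fun i => x i % L)), ?_, ?_⟩
      · exact Finset.mem_product.2 ⟨h, Fintype.mem_piFinset.2 fun i =>
          Finset.mem_range.2 (Nat.mod_lt _ hL0)⟩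
      · funext i
        exact Nat.div_add_mod _ _
    · simp [hS _ h]
  have hsum : Summable fun x : Idx n => ‖F (fun i => x i / L)‖ ^ 2 :=
    summable_of_ne_finset_zero hz
  have hval : sqn (fun x : Idx n => F (fun i => x i / L)) = (L : ℝ) ^ n * ∑ y ∈ S, ‖F y‖ ^ 2 := by
    unfold sqn
    rw [tsum_eq_sum hz, sum_X L S _ (fun r hr => Finset.mem_range.1 hr)]
    simp
  refine ⟨L, hsum, by rw [hval]; positivity, ?_⟩
  have hfix : ∀ x ∈ X L S (Ico K (K + m)),
      avg k (fun x : Idx n => F (fun i => x i / L)) x = F (fun i => x i / L) := by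
    intro x hx
    obtain ⟨p, hp, rfl⟩ := Finset.mem_image.1 hx
    have hp2 := Fintype.mem_piFinset.1 (Finset.mem_product.1 hp).2
    have key : ∀ a r : ℕ, r < L → (L * a + r) / L = a := by
      intro a r h
      rw [Nat.mul_add_div (by omega), Nat.div_eq_of_lt h, add_zero]
    have e : ∀ q : Equiv.Perm (Fin n), shift (fun i => k (q i))
        (fun x : Idx n => F (fun i => x i / L)) (fun i => L * p.1 i + p.2 i)
        = F (fun i => (L * p.1 i + p.2 i) / L) := by
      intro q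
      unfold shift
      rw [if_pos]
      · refine congrArg F ?_
        funext i
        have h1 := Finset.mem_Ico.1 (hp2 i)
        have h2 := hK (q i)
        have h3 : (((L * p.1 i + p.2 i : ℕ) : ℤ) - k (q i)).toNat
            = L * p.1 i + ((p.2 i : ℤ) - k (q i)).toNat := by
          generalize L * p.1 i = t
          omega
        show (((L * p.1 i + p.2 i : ℕ) : ℤ) - k (q i)).toNat / L = _
        rw [h3, key _ _ (by omega), key _ _ (by omega)]
      · intro i
        have h1 := Finset.mem_Ico.1 (hp2 i)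
        have h2 := hK (q i)
        show k (q i) ≤ ((L * p.1 i + p.2 i : ℕ) : ℤ)
        generalize L * p.1 i = t
        omega
    unfold avg
    rw [Finset.sum_congr rfl (fun q _ => e q), Finset.sum_const, nsmul_eq_mul]
    have hN : (n.factorial : ℂ) ≠ 0 := by exact_mod_cast n.factorial_ne_zero
    simp only [Finset.card_univ, Fintype.card_perm, Fintype.card_fin]
    field_simp
  have hlow : (m : ℝ) ^ n * ∑ y ∈ S, ‖F y‖ ^ 2 ≤
      sqn (avg k (fun x : Idx n => F (fun i => x i / L))) := by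
    have a := sum_X L S (Ico K (K + m)) (fun r hr => by
      have := Finset.mem_Ico.1 hr; omega) F
    simp only [Nat.card_Ico, Nat.add_sub_cancel_left] at a
    have a2 : ∑ x ∈ X L S (Ico K (K + m)), ‖F (fun i => x i / L)‖ ^ 2
        = ∑ x ∈ X L S (Ico K (K + m)),
          ‖avg k (fun x : Idx n => F (fun i => x i / L)) x‖ ^ 2 :=
      Finset.sum_congr rfl (fun x hx => by rw [hfix x hx])
    rw [← a, a2]
    exact (avg_summable k _ hsum).sum_le_tsum _ (fun _ _ => by positivity)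
  have hb : c * (L : ℝ) ^ n ≤ (m : ℝ) ^ n := by
    have hK0 : (0 : ℝ) ≤ K := by positivity
    have h2 : (2 * K / L : ℝ) ≤ 1 := by rw [div_le_one hLr0]; linarith
    have b := one_add_mul_le_pow (a := (-(2 * K / L) : ℝ)) (by linarith) n
    have e : (1 + -(2 * K / L) : ℝ) = m / L := by field_simp; linarith
    rw [e, div_pow, le_div_iff₀ (by positivity)] at b
    refine le_trans (mul_le_mul_of_nonneg_right ?_ (by positivity)) b
    have : (n : ℝ) * (2 * K / L) ≤ 1 - c := by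
      rw [← mul_div_assoc, div_le_iff₀ hLr0]; nlinarith
    linarith
  rw [hval]
  nlinarith [mul_le_mul_of_nonneg_right hb hW.le]

/-- Twisted block function. -/
noncomputable def tw {n : ℕ} (L : ℕ) (F : Idx n → ℂ) (W : ℕ → ℂ) (x : Idx n) : ℂ :=
  F (fun i => x i / L) * ∏ i, W (x i / L) ^ (-(x i : ℤ))

lemma norm_tw {n : ℕ} (L : ℕ) (F : Idx n → ℂ) (W : ℕ → ℂ) (hW : ∀ j, ‖W j‖ = 1) (x : Idx n) :
    ‖tw L F W x‖ = ‖F (fun i => x i / L)‖ := by
  simp [tw, norm_prod, hW]

lemma approx {n : ℕ} (k : Fin n → ℤ) (S : Finset (Idx n)) (F : Idx n → ℂ)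
    (hS : ∀ y, y ∉ S → F y = 0) (hW : 0 < ∑ y ∈ S, ‖F y‖ ^ 2)
    (hF : ∀ y, F y ≠ 0 → ∃ s : Equiv.Perm (Fin n), ∀ i, y i = (s i : ℕ))
    (w : Fin n → ℂ) (hw : ∀ i, ‖w i‖ = 1) (e : ℝ) (he : 0 < e) :
    ∃ (L : ℕ) (W : ℕ → ℂ), (Summable fun x : Idx n => ‖tw L F W x‖ ^ 2) ∧
      0 < sqn (tw L F W) ∧
      (Summable fun x : Idx n => ‖avg k (tw L F W) x - symb k w * tw L F W x‖ ^ 2) ∧
      sqn (fun x => avg k (tw L F W) x - symb k w * tw L F W x) ≤ e * sqn (tw L F W) := by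
  classical
  obtain ⟨c, hce⟩ : ∃ c : ℝ, c = 1 - e / 4 := ⟨_, rfl⟩
  obtain ⟨K, hK⟩ : ∃ K : ℕ, ∀ i, (k i).natAbs ≤ K :=
    ⟨∑ i, (k i).natAbs, fun i => Finset.single_le_sum (f := fun i => (k i).natAbs)
      (fun _ _ => Nat.zero_le _) (Finset.mem_univ i)⟩
  obtain ⟨m, hm⟩ := exists_nat_gt (2 * n * K / (1 - c))
  have hc1 : 0 < 1 - c := by linarith
  have hm0 : (0 : ℝ) < m := lt_of_le_of_lt (by positivity) hm
  have hm0' : 0 < m := by exact_mod_cast hm0
  have hm1 : 2 * n * K < m * (1 - c) := by rwa [div_lt_iff₀ hc1] at hm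
  obtain ⟨L, hL⟩ : ∃ L, L = 2 * K + m := ⟨_, rfl⟩
  have hL0 : 0 < L := by omega
  have hLr : (L : ℝ) = 2 * K + m := by simp [hL]
  have hLr0 : (0 : ℝ) < L := by exact_mod_cast hL0
  obtain ⟨W, hWd⟩ : ∃ W : ℕ → ℂ, W = fun j => if h : j < n then w ⟨j, h⟩ else 1 := ⟨_, rfl⟩
  have hW1 : ∀ j, ‖W j‖ = 1 := by
    intro j; rw [hWd]; dsimp only; split_ifs <;> simp [hw]
  have hW0 : ∀ j, W j ≠ 0 := fun j h => by simpa [h] using hW1 j
  have hWw : ∀ i : Fin n, W i = w i := by intro i; rw [hWd]; simp [i.2]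
  have hz : ∀ x : Idx n, x ∉ X L S (range L) → ‖tw L F W x‖ ^ 2 = 0 := by
    intro x hx
    rw [norm_tw L F W hW1]
    by_cases h : (fun i => x i / L) ∈ S
    · exfalso
      apply hx
      refine Finset.mem_image.2 ⟨((fun i => x i / L), (fun i => x i % L)), ?_, ?_⟩
      · exact Finset.mem_product.2 ⟨h, Fintype.mem_piFinset.2 fun i =>
          Finset.mem_range.2 (Nat.mod_lt _ hL0)⟩
      · funext i
        exact Nat.div_add_mod _ _
    · simp [hS _ h]
  have hsum : Summable fun x : Idx n => ‖tw L F W x‖ ^ 2 := summable_of_ne_finset_zero hz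
  have hval : sqn (tw L F W) = (L : ℝ) ^ n * ∑ y ∈ S, ‖F y‖ ^ 2 := by
    unfold sqn
    rw [tsum_eq_sum hz]
    simp only [norm_tw L F W hW1]
    rw [sum_X L S _ (fun r hr => Finset.mem_range.1 hr)]
    simp
  have hsh : ∀ x ∈ X L S (Ico K (K + m)), ∀ q : Equiv.Perm (Fin n),
      shift (fun i => k (q i)) (tw L F W) x = tw L F W x * ∏ i, W (x i / L) ^ k (q i) := by
    intro x hx q
    obtain ⟨p, hp, rfl⟩ := Finset.mem_image.1 hx
    have hp2 := Fintype.mem_piFinset.1 (Finset.mem_product.1 hp).2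
    have key : ∀ a r : ℕ, r < L → (L * a + r) / L = a := by
      intro a r h
      rw [Nat.mul_add_div (by omega), Nat.div_eq_of_lt h, add_zero]
    have hle : ∀ i, k (q i) ≤ ((L * p.1 i + p.2 i : ℕ) : ℤ) := by
      intro i
      have h1 := Finset.mem_Ico.1 (hp2 i)
      have h2 := hK (q i)
      generalize L * p.1 i = t
      omega
    have hd : ∀ i, (((L * p.1 i + p.2 i : ℕ) : ℤ) - k (q i)).toNat / L
        = (L * p.1 i + p.2 i) / L := by
      intro i
      have h1 := Finset.mem_Ico.1 (hp2 i)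
      have h2 := hK (q i)
      have h3 : (((L * p.1 i + p.2 i : ℕ) : ℤ) - k (q i)).toNat
          = L * p.1 i + ((p.2 i : ℤ) - k (q i)).toNat := by
        generalize L * p.1 i = t
        omega
      rw [h3, key _ _ (by omega), key _ _ (by omega)]
    unfold shift
    rw [if_pos hle]
    unfold tw
    simp only [hd]
    rw [mul_assoc, ← Finset.prod_mul_distrib]
    refine congrArg _ (Finset.prod_congr rfl fun i _ => ?_)
    rw [← zpow_add₀ (hW0 _), Int.toNat_of_nonneg (sub_nonneg.2 (hle i))]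
    refine congrArg _ ?_
    ring
  have hfix : ∀ x ∈ X L S (Ico K (K + m)),
      avg k (tw L F W) x - symb k w * tw L F W x = 0 := by
    intro x hx
    unfold avg
    rw [Finset.sum_congr rfl (fun q _ => hsh x hx q), ← Finset.mul_sum]
    by_cases h : F (fun i => x i / L) = 0
    · simp [tw, h]
    · obtain ⟨s, hs⟩ := hF _ h
      have : ∑ q : Equiv.Perm (Fin n), ∏ i, W (x i / L) ^ k (q i)
          = ∑ q : Equiv.Perm (Fin n), ∏ i, w i ^ k (q i) := by
        rw [← Equiv.sum_comp (Equiv.mulRight s)]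
        refine Finset.sum_congr rfl fun q _ => ?_
        rw [← Equiv.prod_comp s (fun i => w i ^ k (q i))]
        refine Finset.prod_congr rfl fun i _ => ?_
        have h1 : x i / L = (s i : ℕ) := hs i
        rw [h1, hWw]
        rfl
      rw [this]
      unfold symb
      ring
  have hG : ∑ x ∈ X L S (Ico K (K + m)), ‖tw L F W x‖ ^ 2 = (m : ℝ) ^ n * ∑ y ∈ S, ‖F y‖ ^ 2 := by
    have a := sum_X L S (Ico K (K + m)) (fun r hr => by
      have := Finset.mem_Ico.1 hr; omega) F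
    simp only [Nat.card_Ico, Nat.add_sub_cancel_left] at a
    simp only [norm_tw L F W hW1]
    exact a
  have hb : c * (L : ℝ) ^ n ≤ (m : ℝ) ^ n := by
    have hK0 : (0 : ℝ) ≤ K := by positivity
    have h2 : (2 * K / L : ℝ) ≤ 1 := by rw [div_le_one hLr0]; linarith
    have b := one_add_mul_le_pow (a := (-(2 * K / L) : ℝ)) (by linarith) n
    have e : (1 + -(2 * K / L) : ℝ) = m / L := by field_simp; linarith
    rw [e, div_pow, le_div_iff₀ (by positivity)] at b
    refine le_trans (mul_le_mul_of_nonneg_right ?_ (by positivity)) b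
    have : (n : ℝ) * (2 * K / L) ≤ 1 - c := by
      rw [← mul_div_assoc, div_le_iff₀ hLr0]; nlinarith
    linarith
  have hl : ‖symb k w‖ ≤ 1 := by
    have hN : (0 : ℝ) < (n.factorial : ℝ) := by exact_mod_cast n.factorial_pos
    unfold symb
    rw [norm_mul]
    have a : ‖∑ p : Equiv.Perm (Fin n), ∏ i, w i ^ k (p i)‖ ≤ n.factorial := by
      refine (norm_sum_le _ _).trans ?_
      simp [norm_prod, norm_zpow, hw, Fintype.card_perm]
    have b : ‖(1 / (n.factorial : ℂ))‖ = 1 / (n.factorial : ℝ) := by simp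
    rw [b, one_div, inv_mul_le_iff₀ hN]
    linarith
  have hmain : ∀ s : Finset (Idx n),
      ∑ x ∈ s, ‖avg k (tw L F W) x - symb k w * tw L F W x‖ ^ 2 ≤ e * sqn (tw L F W) := by
    intro s
    set G := X L S (Ico K (K + m)) with hGd
    have hdis : Disjoint (s \ G) G := Finset.sdiff_disjoint
    have h0 : ∑ x ∈ s, ‖avg k (tw L F W) x - symb k w * tw L F W x‖ ^ 2
        = ∑ x ∈ s \ G, ‖avg k (tw L F W) x - symb k w * tw L F W x‖ ^ 2 := by
      refine (Finset.sum_subset Finset.sdiff_subset fun x hx hx' => ?_).symm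
      have : x ∈ G := by
        by_contra h
        exact hx' (Finset.mem_sdiff.2 ⟨hx, h⟩)
      simp [hfix x this]
    have h1 : ∑ x ∈ s \ G, ‖avg k (tw L F W) x‖ ^ 2
        ≤ sqn (tw L F W) - ∑ x ∈ G, ‖tw L F W x‖ ^ 2 := by
      refine avg_le' k _ _ _ fun q => ?_
      have a := shift_le (fun i => k (q i)) (tw L F W) hsum (s \ G ∪ G)
      rw [Finset.sum_union hdis] at a
      have b : ∑ x ∈ G, ‖shift (fun i => k (q i)) (tw L F W) x‖ ^ 2
          = ∑ x ∈ G, ‖tw L F W x‖ ^ 2 := by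
        refine Finset.sum_congr rfl fun x hx => ?_
        rw [hsh x hx q]
        simp [norm_prod, norm_zpow, hW1]
      linarith
    have h2 : ∑ x ∈ s \ G, ‖tw L F W x‖ ^ 2
        ≤ sqn (tw L F W) - ∑ x ∈ G, ‖tw L F W x‖ ^ 2 := by
      have a : ∑ x ∈ s \ G ∪ G, ‖tw L F W x‖ ^ 2 ≤ sqn (tw L F W) :=
        hsum.sum_le_tsum _ (fun _ _ => by positivity)
      rw [Finset.sum_union hdis] at a
      linarith
    have h3 : ∑ x ∈ s \ G, ‖avg k (tw L F W) x - symb k w * tw L F W x‖ ^ 2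
        ≤ ∑ x ∈ s \ G, (2 * ‖avg k (tw L F W) x‖ ^ 2 + 2 * ‖tw L F W x‖ ^ 2) := by
      refine Finset.sum_le_sum fun x _ => ?_
      have a := norm_sub_le (avg k (tw L F W) x) (symb k w * tw L F W x)
      have b : ‖symb k w * tw L F W x‖ ≤ ‖tw L F W x‖ := by
        rw [norm_mul]; exact mul_le_of_le_one_left (norm_nonneg _) hl
      have d := pow_le_pow_left₀ (norm_nonneg _) (a.trans (add_le_add le_rfl b)) 2
      nlinarith [sq_nonneg (‖avg k (tw L F W) x‖ - ‖tw L F W x‖)]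
    rw [Finset.sum_add_distrib, ← Finset.mul_sum, ← Finset.mul_sum] at h3
    rw [h0]
    rw [hG, hval] at h1 h2
    rw [hval]
    have := mul_le_mul_of_nonneg_right hb hW.le
    rw [hce] at this
    nlinarith
  have hs2 := summable_of_sum_le (fun _ => by positivity) hmain
  exact ⟨L, W, hsum, by rw [hval]; positivity, hs2, hs2.tsum_le_of_sum_le hmain⟩

/-- Signed indicator of permutation vectors. -/
noncomputable def D {n : ℕ} (y : Idx n) : ℂ :=
  (Matrix.of fun i j : Fin n => if y i = (j : ℕ) then (1 : ℂ) else 0).det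

lemma D_zero {n : ℕ} (y : Idx n) (hy : y ∉ Fintype.piFinset fun _ : Fin n => range n) :
    D y = 0 := by
  rw [Fintype.mem_piFinset] at hy
  push Not at hy
  obtain ⟨i, hi⟩ := hy
  refine Matrix.det_eq_zero_of_row_eq_zero i fun j => ?_
  have := j.2
  rw [Finset.mem_range] at hi
  simp only [Matrix.of_apply]
  rw [if_neg (by omega)]

lemma D_id {n : ℕ} : D (fun i : Fin n => (i : ℕ)) = 1 := by
  have : (Matrix.of fun i j : Fin n => if (i : ℕ) = (j : ℕ) then (1 : ℂ) else 0) = 1 := by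
    ext i j
    simp [Matrix.one_apply, Fin.ext_iff]
  unfold D
  rw [this]; simp

lemma D_perm {n : ℕ} (y : Idx n) (p : Equiv.Perm (Fin n)) :
    D (fun i => y (p i)) = ((Equiv.Perm.sign p : ℤ) : ℂ) * D y := by
  unfold D
  rw [← Matrix.det_permute]
  rfl

lemma D_ne {n : ℕ} (y : Idx n) (h : D y ≠ 0) :
    ∃ s : Equiv.Perm (Fin n), ∀ i, y i = (s i : ℕ) := by
  unfold D at h
  rw [Matrix.det_apply'] at h
  obtain ⟨s, -, hs⟩ := Finset.exists_ne_zero_of_sum_ne_zero h
  have := Finset.prod_ne_zero_iff.1 (right_ne_zero_of_mul hs)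
  refine ⟨s.symm, fun i => ?_⟩
  have a := this (s.symm i) (Finset.mem_univ _)
  simpa using a

lemma tw_perm {n : ℕ} (L : ℕ) (W : ℕ → ℂ) (p : Equiv.Perm (Fin n)) (x : Idx n) :
    ∏ i, W (x (p i) / L) ^ (-(x (p i) : ℤ)) = ∏ i, W (x i / L) ^ (-(x i : ℤ)) :=
  Equiv.prod_comp p (fun i => W (x i / L) ^ (-(x i : ℤ)))

/-- Total degree of an index. -/
def deg {n : ℕ} (x : Idx n) : ℤ := ∑ i, (x i : ℤ)

/-- Square-summable functions transforming under permutations by the character `χ`. -/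
def InH {n : ℕ} (χ : Equiv.Perm (Fin n) → ℂ) (f : Idx n → ℂ) : Prop :=
  (Summable fun x => ‖f x‖ ^ 2) ∧
    ∀ (p : Equiv.Perm (Fin n)) (x : Idx n), f (fun i => x (p i)) = χ p * f x

/-- `z` lies in the resolvent set: `avg k - z` is onto and bounded below on the subspace. -/
def Res {n : ℕ} (χ : Equiv.Perm (Fin n) → ℂ) (k : Fin n → ℤ) (z : ℂ) : Prop :=
  (∀ f, InH χ f → ∃ g, InH χ g ∧ ∀ x, avg k g x - z * g x = f x) ∧
    ∃ C : ℝ, ∀ g, InH χ g → sqn g ≤ C * sqn (fun x => avg k g x - z * g x)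

lemma avg_loc {n : ℕ} (k : Fin n → ℤ) (g h : Idx n → ℂ) (c : ℂ) (x : Idx n)
    (H : ∀ y, deg y = deg x - ∑ i, k i → g y = c * h y) : avg k g x = c * avg k h x := by
  unfold avg
  rw [mul_left_comm, Finset.mul_sum (a := c)]
  refine congrArg _ (Finset.sum_congr rfl fun q _ => ?_)
  unfold shift
  split_ifs with hq
  · apply H
    unfold deg
    rw [← Equiv.sum_comp q k, ← Finset.sum_sub_distrib]
    exact Finset.sum_congr rfl fun i _ => Int.toNat_of_nonneg (sub_nonneg.2 (hq i))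
  · simp

lemma deg_perm {n : ℕ} (x : Idx n) (p : Equiv.Perm (Fin n)) : deg (fun i => x (p i)) = deg x :=
  Equiv.sum_comp p (fun i => (x i : ℤ))

lemma deg_nonneg {n : ℕ} (x : Idx n) : 0 ≤ deg x := Finset.sum_nonneg fun _ _ => by positivity

lemma avg_InH {n : ℕ} (χ : Equiv.Perm (Fin n) → ℂ) (k : Fin n → ℤ) (f : Idx n → ℂ)
    (hf : InH χ f) : InH χ (avg k f) := by
  refine ⟨avg_summable k f hf.1, fun p x => ?_⟩
  unfold avg
  rw [mul_left_comm, Finset.mul_sum (a := χ p), ← Equiv.sum_comp (Equiv.mulRight p)]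
  refine congrArg _ (Finset.sum_congr rfl fun q _ => ?_)
  unfold shift
  by_cases hq : ∀ i, k (q i) ≤ (x i : ℤ)
  · rw [if_pos hq, if_pos (show ∀ i, (fun i => k ((Equiv.mulRight p q) i)) i
      ≤ (((fun i => x (p i)) i : ℕ) : ℤ) from fun i => hq (p i)), ← hf.2 p]
    rfl
  · rw [if_neg hq, if_neg, mul_zero]
    intro h
    apply hq
    intro i
    simpa using h (p.symm i)

lemma iter_InH {n : ℕ} (χ : Equiv.Perm (Fin n) → ℂ) (k : Fin n → ℤ) (f : Idx n → ℂ)
    (hf : InH χ f) (j : ℕ) : InH χ ((avg k)^[j] f) := by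
  induction j with
  | zero => exact hf
  | succ j ih => rw [Function.iterate_succ_apply']; exact avg_InH χ k _ ih

lemma summ_fin {n : ℕ} (u : Idx n → ℂ) (m : ℤ) (h : ∀ x, m < deg x → u x = 0) :
    Summable fun x => ‖u x‖ ^ 2 := by
  refine summable_of_ne_finset_zero (s := Fintype.piFinset fun _ => range (m.toNat + 1))
    fun x hx => ?_
  rw [Fintype.mem_piFinset] at hx
  push Not at hx
  obtain ⟨i, hi⟩ := hx
  rw [Finset.mem_range] at hi
  have : (x i : ℤ) ≤ deg x :=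
    Finset.single_le_sum (f := fun i => (x i : ℤ)) (fun _ _ => by positivity) (Finset.mem_univ i)
  rw [h x (by omega)]; simp

lemma core {n : ℕ} (χ : Equiv.Perm (Fin n) → ℂ) (k : Fin n → ℤ) (hd : ∑ i, k i ≠ 0) (z : ℂ)
    (hz : z ≠ 0) (hR : Res χ k z) : ∃ C : ℝ, ∀ f, InH χ f → ∀ m : ℤ,
      (∀ x, deg x ≠ m → f x = 0) → ∀ j : ℕ, ∃ u : Idx n → ℂ, (Summable fun x => ‖u x‖ ^ 2) ∧
        sqn u ≤ C * sqn f ∧
        ∀ x, deg x = m + j * ∑ i, k i → (avg k)^[j] f x = -z ^ (j + 1) * u x := by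
  obtain ⟨hon, C, hC⟩ := hR
  refine ⟨C, fun f hf m hm j => ?_⟩
  generalize hdd : ∑ i, k i = d at hd
  have key : ∀ g : Idx n → ℂ, (∀ x, avg k g x - z * g x = f x) →
      (∀ y, deg y = m - d → g y = 0) →
      ∀ j : ℕ, ∀ x, deg x = m + j * d → (avg k)^[j] f x = -z ^ (j + 1) * g x := by
    intro g hg h0 j
    induction j with
    | zero =>
      intro x hx
      have a := avg_loc k g g 0 x (fun y hy => by
        rw [h0 y (by rw [hy, hdd, hx]; simp)]; simp)
      have b := hg x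
      simp only [Function.iterate_zero, id]
      linear_combination a - b
    | succ j ih =>
      intro x hx
      rw [Function.iterate_succ_apply']
      have a := avg_loc k ((avg k)^[j] f) g (-z ^ (j + 1)) x (fun y hy =>
        ih y (by rw [hy, hdd, hx]; push_cast; ring))
      have b := hg x
      rw [hm x (by
        rw [hx]; intro h
        have : ((j + 1 : ℕ) : ℤ) * d = 0 := by linarith
        rcases mul_eq_zero.1 this with h | h
        · omega
        · exact hd h)] at b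
      rw [a]
      linear_combination (-z ^ (j + 1)) * b
  rcases lt_or_gt_of_ne hd with hneg | hpos
  · have hom : ∀ j : ℕ, ∀ x, deg x ≠ m + j * d → (avg k)^[j] f x = 0 := by
      intro j
      induction j with
      | zero => intro x hx; exact hm x (by simpa using hx)
      | succ j ih =>
        intro x hx
        rw [Function.iterate_succ_apply']
        rw [avg_loc k _ f 0 x (fun y hy => by
          rw [ih y (by rw [hy, hdd]; intro h; apply hx; push_cast; linarith)]; simp)]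
        simp
    obtain ⟨J, hJ⟩ : ∃ J : ℤ → ℕ, J = fun e => ((m - e) / (-d)).toNat := ⟨_, rfl⟩
    have J0 : ∀ e, m < e - d → J e = 0 := by
      intro e he
      rw [hJ]
      have : (m - e) / (-d) < 1 := Int.ediv_lt_of_lt_mul (by omega) (by omega)
      simp only; omega
    have J1 : ∀ e, e - d ≤ m → J e = J (e - d) + 1 := by
      intro e he
      rw [hJ]
      have a : (m - e) / (-d) = (m - (e - d)) / (-d) + 1 := by
        rw [← Int.add_mul_ediv_right _ _ (by omega : -d ≠ 0)]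
        congr 1; ring
      have b : 0 ≤ (m - (e - d)) / (-d) := Int.ediv_nonneg (by omega) (by omega)
      simp only; omega
    obtain ⟨u, hu⟩ : ∃ u : Idx n → ℂ,
      u = fun x => -(z ^ (J (deg x) + 1))⁻¹ * (avg k)^[J (deg x)] f x := ⟨_, rfl⟩
    have u0 : ∀ x, m < deg x → u x = 0 := by
      intro x hx
      rw [hu]; simp only
      rw [J0 _ (by omega)]
      simp [hm x (by omega)]
    have uH : InH χ u := by
      refine ⟨summ_fin u m u0, fun p x => ?_⟩
      rw [hu]; simp only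
      rw [deg_perm, (iter_InH χ k f hf _).2 p x]; ring
    have ue : ∀ x, avg k u x - z * u x = f x := by
      intro x
      by_cases h : m < deg x - d
      · have a := avg_loc k u u 0 x (fun y hy => by rw [u0 y (by rw [hy, hdd]; exact h)]; simp)
        rw [a, hu]; simp only
        rw [J0 _ h]
        simp only [Function.iterate_zero, id]
        field_simp
        ring
      · have a := avg_loc k u ((avg k)^[J (deg x - d)] f) (-(z ^ (J (deg x - d) + 1))⁻¹) x
          (fun y hy => by rw [hu]; simp only; rw [hy, hdd])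
        rw [a, hu]; simp only
        rw [J1 (deg x) (by omega), Function.iterate_succ_apply', hm x (by omega)]
        field_simp
        ring
    refine ⟨u, uH.1, ?_, key u ue (fun y hy => u0 y (by omega)) j⟩
    have := hC u uH
    simpa only [ue] using this
  · obtain ⟨g, gH, hg⟩ := hon f hf
    have g0 : ∀ t : ℕ, ∀ y, deg y < t → deg y < m → g y = 0 := by
      intro t
      induction t with
      | zero => intro y hy; have := deg_nonneg y; omega
      | succ t ih =>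
        intro y h1 h2
        have a := avg_loc k g g 0 y (fun w hw => by
          rw [ih w (by rw [hw, hdd]; omega) (by rw [hw, hdd]; omega)]; simp)
        have b := hg y
        rw [hm y (by omega), a] at b
        simpa [hz] using b
    refine ⟨g, gH.1, ?_, key g hg (fun y hy => g0 ((deg y).toNat + 1) y (by omega) (by omega)) j⟩
    have := hC g gH
    simpa only [hg] using this

lemma decay {n : ℕ} (χ : Equiv.Perm (Fin n) → ℂ) (k : Fin n → ℤ) (hd : ∑ i, k i ≠ 0) (z : ℂ)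
    (hz : z ≠ 0) (hR : Res χ k z) : ∃ C : ℝ, 0 ≤ C ∧ ∀ f, InH χ f → ∀ (j : ℕ) (s : Finset (Idx n)),
      ∑ x ∈ s, ‖(avg k)^[j] f x‖ ^ 2 ≤ C * (‖z‖ ^ 2) ^ j * sqn f := by
  classical
  obtain ⟨C, hC⟩ := core χ k hd z hz hR
  refine ⟨‖z‖ ^ 2 * |C|, by positivity, fun f hf j s => ?_⟩
  obtain ⟨P, hP⟩ : ∃ P : ℤ → Idx n → ℂ, P = fun m x => if deg x = m then f x else 0 := ⟨_, rfl⟩
  have P0 : ∀ m x, deg x ≠ m → P m x = 0 := by intro m x h; simp [hP, h]
  have PH : ∀ m, InH χ (P m) := by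
    intro m
    refine ⟨summ_fin _ m fun x hx => P0 m x (by omega), fun p x => ?_⟩
    rw [hP]; simp only
    rw [deg_perm, hf.2]
    split_ifs <;> simp
  have loc : ∀ (m : ℤ) (j : ℕ) x, deg x = m + j * ∑ i, k i →
      (avg k)^[j] f x = (avg k)^[j] (P m) x := by
    intro m j
    induction j with
    | zero => intro x hx; simp [hP, hx]
    | succ j ih =>
      intro x hx
      rw [Function.iterate_succ_apply', Function.iterate_succ_apply']
      rw [avg_loc k _ ((avg k)^[j] (P m)) 1 x (fun y hy => by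
        rw [ih y (by rw [hy, hx]; push_cast; ring), one_mul]), one_mul]
  set t := s.image (fun x => deg x - j * ∑ i, k i) with ht
  rw [← Finset.sum_fiberwise_of_maps_to (t := t) (g := fun x => deg x - j * ∑ i, k i)
    (fun x hx => Finset.mem_image_of_mem _ hx)]
  have h1 : ∀ m ∈ t, ∑ x ∈ s with deg x - j * ∑ i, k i = m, ‖(avg k)^[j] f x‖ ^ 2
      ≤ ‖z‖ ^ 2 * |C| * (‖z‖ ^ 2) ^ j * sqn (P m) := by
    intro m _
    obtain ⟨u, u1, u2, u3⟩ := hC (P m) (PH m) m (P0 m) j
    have a : ∑ x ∈ s with deg x - j * ∑ i, k i = m, ‖(avg k)^[j] f x‖ ^ 2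
        = (‖z‖ ^ 2) ^ (j + 1) * ∑ x ∈ s with deg x - j * ∑ i, k i = m, ‖u x‖ ^ 2 := by
      rw [Finset.mul_sum (a := (‖z‖ ^ 2) ^ (j + 1))]
      refine Finset.sum_congr rfl fun x hx => ?_
      have hx' : deg x = m + j * ∑ i, k i := by
        have := (Finset.mem_filter.1 hx).2; linarith
      rw [loc m j x hx', u3 x hx', norm_mul, norm_neg, norm_pow]; ring
    have b : ∑ x ∈ s with deg x - j * ∑ i, k i = m, ‖u x‖ ^ 2 ≤ sqn u :=
      u1.sum_le_tsum _ (fun _ _ => by positivity)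
    have c : 0 ≤ sqn (P m) := tsum_nonneg fun _ => by positivity
    have e : C * sqn (P m) ≤ |C| * sqn (P m) := mul_le_mul_of_nonneg_right (le_abs_self C) c
    rw [a]
    calc _ ≤ (‖z‖ ^ 2) ^ (j + 1) * (|C| * sqn (P m)) :=
          mul_le_mul_of_nonneg_left (by linarith) (by positivity)
      _ = _ := by ring
  refine (Finset.sum_le_sum h1).trans ?_
  rw [← Finset.mul_sum]
  refine mul_le_mul_of_nonneg_left ?_ (by positivity)
  unfold sqn
  rw [← Summable.tsum_finsetSum (fun m _ => (PH m).1)]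
  refine Summable.tsum_le_tsum (fun x => ?_) (summable_sum fun m _ => (PH m).1) hf.1
  have : ∀ m, ‖P m x‖ ^ 2 = if deg x = m then ‖f x‖ ^ 2 else 0 := by
    intro m; rw [hP]; simp only; split_ifs <;> simp
  simp only [this, Finset.sum_ite_eq]
  split_ifs
  · exact le_rfl
  · positivity

lemma nodecay {n : ℕ} (k : Fin n → ℤ) (S : Finset (Idx n)) (F : Idx n → ℂ)
    (hS : ∀ y, y ∉ S → F y = 0) (hW : 0 < ∑ y ∈ S, ‖F y‖ ^ 2) (j : ℕ) :
    ∃ (L : ℕ) (s : Finset (Idx n)), (Summable fun x : Idx n => ‖F (fun i => x i / L)‖ ^ 2) ∧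
      0 < sqn (fun x : Idx n => F (fun i => x i / L)) ∧
      (1 / 2) * sqn (fun x : Idx n => F (fun i => x i / L)) ≤
        ∑ x ∈ s, ‖(avg k)^[j] (fun x : Idx n => F (fun i => x i / L)) x‖ ^ 2 := by
  classical
  obtain ⟨K0, hK⟩ : ∃ K : ℕ, ∀ i, (k i).natAbs ≤ K :=
    ⟨∑ i, (k i).natAbs, fun i => Finset.single_le_sum (f := fun i => (k i).natAbs)
      (fun _ _ => Nat.zero_le _) (Finset.mem_univ i)⟩
  obtain ⟨K, hKd⟩ : ∃ K, K = j * K0 := ⟨_, rfl⟩
  obtain ⟨m, hm⟩ := exists_nat_gt (4 * n * K : ℝ)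
  have hm0 : (0 : ℝ) < m := lt_of_le_of_lt (by positivity) hm
  have hm0' : 0 < m := by exact_mod_cast hm0
  obtain ⟨L, hL⟩ : ∃ L, L = 2 * K + m := ⟨_, rfl⟩
  have hL0 : 0 < L := by omega
  have hLr : (L : ℝ) = 2 * K + m := by simp [hL]
  have hLr0 : (0 : ℝ) < L := by exact_mod_cast hL0
  have hz : ∀ x : Idx n, x ∉ X L S (range L) → ‖F (fun i => x i / L)‖ ^ 2 = 0 := by
    intro x hx
    by_cases h : (fun i => x i / L) ∈ S
    · exfalso
      apply hx
      refine Finset.mem_image.2 ⟨((fun i => x i / L), (fun i => x i % L)), ?_, ?_⟩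
      · exact Finset.mem_product.2 ⟨h, Fintype.mem_piFinset.2 fun i =>
          Finset.mem_range.2 (Nat.mod_lt _ hL0)⟩
      · funext i
        exact Nat.div_add_mod _ _
    · simp [hS _ h]
  have hsum : Summable fun x : Idx n => ‖F (fun i => x i / L)‖ ^ 2 :=
    summable_of_ne_finset_zero hz
  have hval : sqn (fun x : Idx n => F (fun i => x i / L)) = (L : ℝ) ^ n * ∑ y ∈ S, ‖F y‖ ^ 2 := by
    unfold sqn
    rw [tsum_eq_sum hz, sum_X L S _ (fun r hr => Finset.mem_range.1 hr)]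
    simp
  have key : ∀ a r : ℕ, r < L → (L * a + r) / L = a := by
    intro a r h
    rw [Nat.mul_add_div (by omega), Nat.div_eq_of_lt h, add_zero]
  have hit : ∀ (t : ℕ) (y r : Idx n), (∀ i, t * K0 ≤ r i ∧ r i + t * K0 < L) →
      (avg k)^[t] (fun x : Idx n => F (fun i => x i / L)) (fun i => L * y i + r i) = F y := by
    intro t
    induction t with
    | zero =>
      intro y r h
      refine congrArg F ?_
      funext i
      exact key _ _ (by have := h i; omega)
    | succ t ih =>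
      intro y r h
      rw [Function.iterate_succ_apply']
      have e : ∀ q : Equiv.Perm (Fin n), shift (fun i => k (q i))
          ((avg k)^[t] (fun x : Idx n => F (fun i => x i / L))) (fun i => L * y i + r i)
          = F y := by
        intro q
        unfold shift
        rw [if_pos]
        · rw [← ih y (fun i => ((r i : ℤ) - k (q i)).toNat) (fun i => by
            have h1 := h i
            have h2 := hK (q i)
            rw [Nat.succ_mul] at h1
            generalize t * K0 = a at *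
            omega)]
          refine congrArg _ ?_
          funext i
          have h1 := h i
          have h2 := hK (q i)
          rw [Nat.succ_mul] at h1
          show (((L * y i + r i : ℕ) : ℤ) - k (q i)).toNat = L * y i + ((r i : ℤ) - k (q i)).toNat
          generalize L * y i = b
          generalize t * K0 = a at *
          omega
        · intro i
          have h1 := h i
          have h2 := hK (q i)
          rw [Nat.succ_mul] at h1
          show k (q i) ≤ ((L * y i + r i : ℕ) : ℤ)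
          generalize L * y i = b
          generalize t * K0 = a at *
          omega
      unfold avg at e ⊢
      rw [Finset.sum_congr rfl (fun q _ => e q), Finset.sum_const, nsmul_eq_mul]
      have hN : (n.factorial : ℂ) ≠ 0 := by exact_mod_cast n.factorial_ne_zero
      simp only [Finset.card_univ, Fintype.card_perm, Fintype.card_fin]
      field_simp
  refine ⟨L, X L S (Ico K (K + m)), hsum, by rw [hval]; positivity, ?_⟩
  have a := sum_X L S (Ico K (K + m)) (fun r hr => by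
    have := Finset.mem_Ico.1 hr; omega) F
  simp only [Nat.card_Ico, Nat.add_sub_cancel_left] at a
  have a2 : ∑ x ∈ X L S (Ico K (K + m)),
        ‖(avg k)^[j] (fun x : Idx n => F (fun i => x i / L)) x‖ ^ 2
      = ∑ x ∈ X L S (Ico K (K + m)), ‖F (fun i => x i / L)‖ ^ 2 := by
    refine Finset.sum_congr rfl fun x hx => ?_
    obtain ⟨p, hp, rfl⟩ := Finset.mem_image.1 hx
    have hp2 := Fintype.mem_piFinset.1 (Finset.mem_product.1 hp).2
    rw [hit j p.1 p.2 (fun i => by have := Finset.mem_Ico.1 (hp2 i); omega)]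
    have : (fun i => (L * p.1 i + p.2 i) / L) = p.1 := by
      funext i
      exact key _ _ (by have := Finset.mem_Ico.1 (hp2 i); omega)
    rw [this]
  have hb : (1 / 2) * (L : ℝ) ^ n ≤ (m : ℝ) ^ n := by
    have hK0 : (0 : ℝ) ≤ K := by positivity
    have h2 : (2 * K / L : ℝ) ≤ 1 := by rw [div_le_one hLr0]; linarith
    have b := one_add_mul_le_pow (a := (-(2 * K / L) : ℝ)) (by linarith) n
    have e : (1 + -(2 * K / L) : ℝ) = m / L := by field_simp; linarith
    rw [e, div_pow, le_div_iff₀ (by positivity)] at b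
    refine le_trans (mul_le_mul_of_nonneg_right ?_ (by positivity)) b
    have : (n : ℝ) * (2 * K / L) ≤ 1 / 2 := by
      rw [← mul_div_assoc, div_le_iff₀ hLr0]; nlinarith
    linarith
  rw [a2, a, hval]
  nlinarith [mul_le_mul_of_nonneg_right hb hW.le]

lemma notres {n : ℕ} (χ : Equiv.Perm (Fin n) → ℂ) (k : Fin n → ℤ) (hd : ∑ i, k i ≠ 0)
    (S : Finset (Idx n)) (F : Idx n → ℂ)
    (hS : ∀ y, y ∉ S → F y = 0) (hW : 0 < ∑ y ∈ S, ‖F y‖ ^ 2)
    (hF : ∀ (y : Idx n) (p : Equiv.Perm (Fin n)), F (fun i => y (p i)) = χ p * F y)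
    (z : ℂ) (hz : ‖z‖ < 1) : ¬ Res χ k z := by
  intro hR
  by_cases h0 : z = 0
  · subst h0
    obtain ⟨L, s, h1, h2, -⟩ := nodecay k S F hS hW 0
    have fH : InH χ (fun x : Idx n => F (fun i => x i / L)) :=
      ⟨h1, fun p x => hF (fun i => x i / L) p⟩
    obtain ⟨hon, C, hC⟩ := hR
    rcases lt_or_gt_of_ne hd with hneg | hpos
    · have A : ∀ t : ℕ, ∀ g, InH χ g → (∀ x, (t : ℤ) ≤ deg x → g x = 0) → ∀ x, g x = 0 := by
        intro t
        induction t with
        | zero => intro g _ h x; exact h x (deg_nonneg x)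
        | succ t ih =>
          intro g gH h x
          have a := ih (avg k g) (avg_InH χ k g gH) (fun y hy => by
            rw [avg_loc k g g 0 y (fun w hw => by rw [h w (by push_cast; omega)]; simp)]; simp)
          have b := hC g gH
          simp only [a, zero_mul, sub_zero, sqn, norm_zero] at b
          have c := gH.1.sum_le_tsum {x} (fun _ _ => by positivity)
          simp only [Finset.sum_singleton] at c
          have : ‖g x‖ ^ 2 ≤ 0 := by simpa using c.trans b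
          have e : ‖g x‖ ^ 2 = 0 := le_antisymm this (by positivity)
          simpa using e
      have B : ∀ x : Idx n, F (fun i => x i / L) = 0 := by
        intro x
        have gH : InH χ (fun y : Idx n => if deg y = deg x then F (fun i => y i / L) else 0) := by
          refine ⟨summ_fin _ (deg x) fun y hy => if_neg (by omega), fun p y => ?_⟩
          simp only [deg_perm]
          rw [hF (fun i => y i / L) p]
          split_ifs <;> simp
        have := A ((deg x).toNat + 1) _ gH (fun y hy => if_neg (by push_cast at hy; omega)) x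
        simpa using this
      simp [sqn, B] at h2
    · have A : ∀ t : ℕ, ∀ f, InH χ f → ∀ x, deg x < t → f x = 0 := by
        intro t
        induction t with
        | zero => intro f _ x hx; have := deg_nonneg x; omega
        | succ t ih =>
          intro f fH x hx
          obtain ⟨g, gH, hg⟩ := hon f fH
          rw [← hg x, avg_loc k g g 0 x (fun w hw => by
            rw [ih g gH w (by push_cast at hx; omega)]; simp)]
          simp
      have B : ∀ x : Idx n, F (fun i => x i / L) = 0 := fun x =>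
        A ((deg x).toNat + 1) _ fH x (by push_cast; omega)
      simp [sqn, B] at h2
  · obtain ⟨C, hC0, hC⟩ := decay χ k hd z h0 hR
    have hr : ‖z‖ ^ 2 < 1 := by nlinarith [norm_nonneg z]
    obtain ⟨j, hj⟩ := exists_pow_lt_of_lt_one (show (0 : ℝ) < 1 / (2 * (C + 1)) by positivity) hr
    obtain ⟨L, s, h1, h2, h3⟩ := nodecay k S F hS hW j
    have := hC _ ⟨h1, fun p x => hF (fun i => x i / L) p⟩ j s
    rw [lt_div_iff₀ (by positivity)] at hj
    have e : 0 ≤ (‖z‖ ^ 2) ^ j := by positivity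
    have : (1 / 2 - C * (‖z‖ ^ 2) ^ j) * sqn (fun x : Idx n => F (fun i => x i / L)) ≤ 0 := by
      linarith
    nlinarith

lemma circ {n : ℕ} (k : Fin n → ℤ) (hd : ∑ i, k i ≠ 0) (z : ℂ) (hz : ‖z‖ = 1) :
    ∃ w : Fin n → ℂ, (∀ i, ‖w i‖ = 1) ∧ symb k w = z := by
  have h2 : ((∑ i, k i : ℤ) : ℝ) ≠ 0 := by exact_mod_cast hd
  obtain ⟨u, hu⟩ : ∃ u : ℝ, u * ((∑ i, k i : ℤ) : ℝ) = z.arg :=
    ⟨z.arg / ((∑ i, k i : ℤ) : ℝ), by field_simp⟩
  refine ⟨fun _ => Complex.exp ((u : ℂ) * Complex.I), fun _ => Complex.norm_exp_ofReal_mul_I _, ?_⟩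
  have e : ∀ p : Equiv.Perm (Fin n), ∏ i, Complex.exp ((u : ℂ) * Complex.I) ^ k (p i) = z := by
    intro p
    simp only [← Complex.exp_int_mul]
    rw [← Complex.exp_sum, ← Finset.sum_mul, ← Int.cast_sum, Equiv.sum_comp p k]
    have r := Complex.norm_mul_exp_arg_mul_I z
    rw [hz, ← hu] at r
    rw [← r]
    push_cast
    rw [one_mul]
    congr 1
    ring
  unfold symb
  rw [Finset.sum_congr rfl (fun q _ => e q), Finset.sum_const, nsmul_eq_mul]
  have hN : (n.factorial : ℂ) ≠ 0 := by exact_mod_cast n.factorial_ne_zero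
  simp only [Finset.card_univ, Fintype.card_perm, Fintype.card_fin]
  field_simp

lemma fin_contra (C a b : ℝ) (ha : 0 < a) (h1 : a ≤ C * b) (h2 : b ≤ 1 / (2 * (|C| + 1)) * a)
    (hb : 0 ≤ b) : False := by
  have h3 : C * b ≤ |C| * b := mul_le_mul_of_nonneg_right (le_abs_self C) hb
  have h4 : 0 ≤ |C| := abs_nonneg C
  rw [one_div, inv_mul_eq_div, le_div_iff₀ (by positivity)] at h2
  nlinarith

lemma mem2 {n : ℕ} (f : Idx n → ℂ) :
    Memℓp f (2 : ENNReal) ↔ Summable fun x => ‖f x‖ ^ 2 := by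
  rw [memℓp_gen_iff (by norm_num)]
  simp

lemma norm2 {n : ℕ} (f : lp (fun _ : Idx n => ℂ) 2) : ‖f‖ ^ 2 = sqn f := by
  have := lp.norm_rpow_eq_tsum (p := 2) (by norm_num) f
  simpa [sqn] using this

lemma avg_add {n : ℕ} (k : Fin n → ℤ) (f g : Idx n → ℂ) (x : Idx n) :
    avg k (fun y => f y + g y) x = avg k f x + avg k g x := by
  unfold avg
  rw [← mul_add, ← Finset.sum_add_distrib]
  refine congrArg _ (Finset.sum_congr rfl fun q _ => ?_)
  unfold shift
  split_ifs <;> simp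

/-- The averaged operator as a bounded operator. -/
noncomputable def T {n : ℕ} (k : Fin n → ℤ) :
    lp (fun _ : Idx n => ℂ) 2 →L[ℂ] lp (fun _ : Idx n => ℂ) 2 :=
  LinearMap.mkContinuous
    { toFun := fun f => ⟨avg k f, (mem2 _).2 (avg_summable k f ((mem2 _).1 f.2))⟩
      map_add' := fun f g => by
        ext x
        exact avg_add k f g x
      map_smul' := fun c f => by
        ext x
        exact avg_loc k _ f c x (fun y _ => rfl) } 1
    (fun f => by
      rw [one_mul]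
      refine (pow_le_pow_iff_left₀ (norm_nonneg _) (norm_nonneg _) two_ne_zero).1 ?_
      rw [norm2, norm2]
      exact (avg_summable k f ((mem2 _).1 f.2)).tsum_le_of_sum_le (avg_le k f ((mem2 _).1 f.2)))

lemma T_apply {n : ℕ} (k : Fin n → ℤ) (f : lp (fun _ : Idx n => ℂ) 2) (x : Idx n) :
    T k f x = avg k f x := rfl

lemma T_norm {n : ℕ} (k : Fin n → ℤ) : ‖T k‖ ≤ 1 :=
  LinearMap.mkContinuous_norm_le _ zero_le_one _

lemma avg_comm {n : ℕ} (k : Fin n → ℤ) (f : Idx n → ℂ) (p : Equiv.Perm (Fin n)) (x : Idx n) :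
    avg k f (fun i => x (p i)) = avg k (fun y => f (fun i => y (p i))) x := by
  unfold avg
  rw [← Equiv.sum_comp (Equiv.mulRight p)]
  refine congrArg _ (Finset.sum_congr rfl fun q _ => ?_)
  unfold shift
  by_cases hq : ∀ i, k (q i) ≤ (x i : ℤ)
  · rw [if_pos hq, if_pos (show ∀ i, (fun i => k ((Equiv.mulRight p q) i)) i
      ≤ (((fun i => x (p i)) i : ℕ) : ℤ) from fun i => hq (p i))]
    rfl
  · rw [if_neg hq, if_neg]
    intro h
    apply hq
    intro i
    simpa using h (p.symm i)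

lemma res_of {n : ℕ} (χ : Equiv.Perm (Fin n) → ℂ) (k : Fin n → ℤ) (z : ℂ)
    (hz : z ∉ spectrum ℂ (T k)) : Res χ k z := by
  rw [spectrum.notMem_iff] at hz
  obtain ⟨u, hu⟩ := hz
  have ua : ∀ (g : lp (fun _ : Idx n => ℂ) 2) x, (u.val g) x = z * g x - avg k g x := by
    intro g x
    rw [hu]
    simp only [Algebra.algebraMap_eq_smul_one]
    rfl
  have i1 : ∀ g, u.val (u.inv g) = g := fun g => congrArg (fun A => A g) u.val_inv
  have i2 : ∀ g, u.inv (u.val g) = g := fun g => congrArg (fun A => A g) u.inv_val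
  constructor
  · intro f hf
    obtain ⟨g, hg⟩ : ∃ g, g = u.inv (-⟨f, (mem2 f).2 hf.1⟩) := ⟨_, rfl⟩
    have e : ∀ x, avg k g x - z * g x = f x := by
      intro x
      have a := ua g x
      rw [hg, i1, ← hg] at a
      have b : (-(⟨f, (mem2 f).2 hf.1⟩ : lp (fun _ : Idx n => ℂ) 2)) x = -f x := rfl
      rw [b] at a
      linear_combination a
    refine ⟨g, ⟨(mem2 _).1 g.2, fun p x => ?_⟩, e⟩
    have sp : Summable fun y : Idx n => ‖g (fun i => y (p i))‖ ^ 2 :=
      (Equiv.arrowCongr p.symm (Equiv.refl ℕ)).summable_iff.2 ((mem2 _).1 g.2)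
    obtain ⟨g', hg'⟩ : ∃ g' : lp (fun _ : Idx n => ℂ) 2, ∀ y, g' y = g (fun i => y (p i)) :=
      ⟨⟨_, (mem2 _).2 sp⟩, fun _ => rfl⟩
    have : u.val g' = u.val (χ p • g) := by
      ext y
      rw [ua, ua, avg_loc k (χ p • g : lp (fun _ : Idx n => ℂ) 2) g (χ p) y (fun _ _ => rfl)]
      have a := e (fun i => y (p i))
      rw [avg_comm, hf.2 p y, ← e y] at a
      have b : (g' : Idx n → ℂ) = fun y => g (fun i => y (p i)) := funext hg'
      have c : (χ p • g : lp (fun _ : Idx n => ℂ) 2) y = χ p * g y := rfl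
      rw [b, c]
      linear_combination -a
    have h2 : g' = χ p • g := by rw [← i2 g', this, i2]
    rw [← hg' x, h2]
    rfl
  · refine ⟨‖u.inv‖ ^ 2, fun g hg => ?_⟩
    obtain ⟨G, hG⟩ : ∃ G : lp (fun _ : Idx n => ℂ) 2, (G : Idx n → ℂ) = g :=
      ⟨⟨g, (mem2 g).2 hg.1⟩, rfl⟩
    subst hG
    have a : sqn (fun x => avg k G x - z * G x) = ‖u.val G‖ ^ 2 := by
      rw [norm2]
      unfold sqn
      refine tsum_congr fun x => ?_
      rw [ua, norm_sub_rev]
    rw [a, ← norm2, ← mul_pow]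
    refine pow_le_pow_left₀ (norm_nonneg _) ?_ 2
    conv_lhs => rw [← i2 G]
    exact u.inv.le_opNorm _

lemma res_out {n : ℕ} (χ : Equiv.Perm (Fin n) → ℂ) (k : Fin n → ℤ) (z : ℂ) (hz : 1 < ‖z‖) :
    Res χ k z := by
  refine res_of χ k z fun h => ?_
  have a := spectrum.subset_closedBall_norm_mul (𝕜 := ℂ) (T k) h
  rw [mem_closedBall_zero_iff] at a
  have b := T_norm k
  have c : ‖(1 : lp (fun _ : Idx n => ℂ) 2 →L[ℂ] lp (fun _ : Idx n => ℂ) 2)‖ ≤ 1 :=
    ContinuousLinearMap.norm_id_le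
  nlinarith [norm_nonneg (T k)]

lemma sh_single {n : ℕ} (k : Fin n → ℤ) (y x : Idx n) (c : ℂ) :
    shift k (lp.single (E := fun _ : Idx n => ℂ) 2 y c) x
      = if ∀ i, (x i : ℤ) - k i = y i then c else 0 := by
  unfold shift
  by_cases h : ∀ i, (x i : ℤ) - k i = y i
  · rw [if_pos h, if_pos (fun i => by have := h i; omega)]
    have : (fun i => ((x i : ℤ) - k i).toNat) = y := by
      funext i; rw [h i]; simp
    rw [this, lp.single_apply_self]
  · rw [if_neg h]
    split_ifs with h2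
    · refine lp.single_apply_ne _ _ _ fun e => h fun i => ?_
      have a := congrFun e i
      have b := h2 i
      omega
    · rfl

lemma T_sa {n : ℕ} (k : Fin n → ℤ) (p : Equiv.Perm (Fin n)) (hp : ∀ i, k (p i) = -k i) :
    IsSelfAdjoint (T k) := by
  rw [ContinuousLinearMap.isSelfAdjoint_iff']
  refine lp.ext_continuousLinearMap (by norm_num) fun y => ?_
  ext x
  have a := lp.inner_single_left (𝕜 := ℂ) (G := fun _ : Idx n => ℂ) x (1 : ℂ)
    (ContinuousLinearMap.adjoint (T k) (lp.single 2 y (1 : ℂ)))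
  rw [ContinuousLinearMap.adjoint_inner_right, lp.inner_single_right] at a
  show (ContinuousLinearMap.adjoint (T k) (lp.single 2 y (1 : ℂ))) x
    = avg k (lp.single (E := fun _ : Idx n => ℂ) 2 y (1 : ℂ)) x
  have b : (ContinuousLinearMap.adjoint (T k) (lp.single 2 y (1 : ℂ))) x
      = (starRingEnd ℂ) (avg k (lp.single (E := fun _ : Idx n => ℂ) 2 x (1 : ℂ)) y) := by
    simpa [T_apply] using a.symm
  rw [b]
  unfold avg
  simp only [sh_single]
  rw [map_mul, map_sum, ← Equiv.sum_comp (Equiv.mulLeft p)]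
  congr 1
  · simp
  · refine Finset.sum_congr rfl fun q _ => ?_
    have : (∀ i, (y i : ℤ) - k ((Equiv.mulLeft p q) i) = x i) ↔ ∀ i, (x i : ℤ) - k (q i) = y i := by
      refine forall_congr' fun i => ?_
      have : k ((Equiv.mulLeft p q) i) = -k (q i) := hp (q i)
      rw [this]; omega
    simp only [this]
    split_ifs <;> simp

lemma res_im {n : ℕ} (χ : Equiv.Perm (Fin n) → ℂ) (k : Fin n → ℤ) (p : Equiv.Perm (Fin n))
    (hp : ∀ i, k (p i) = -k i) (z : ℂ) (hz : z.im ≠ 0) : Res χ k z :=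
  res_of χ k z fun h => hz ((T_sa k p hp).im_eq_zero_of_mem_spectrum h)

lemma seg (k : Fin 2 → ℤ) (h0 : k 0 ≠ 0) (hs : k 1 = -k 0) (t : ℝ) (ht : |t| ≤ 1) :
    ∃ w : Fin 2 → ℂ, (∀ i, ‖w i‖ = 1) ∧ symb k w = t := by
  have h1 : (k 0 : ℝ) ≠ 0 := by exact_mod_cast h0
  obtain ⟨v, hv⟩ : ∃ v : ℝ, v * k 0 = Real.arccos t := ⟨Real.arccos t / k 0, by field_simp⟩
  refine ⟨![Complex.exp ((v : ℂ) * Complex.I), 1], fun i => ?_, ?_⟩
  · fin_cases i
    · exact Complex.norm_exp_ofReal_mul_I _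
    · simp
  · have hU : (Finset.univ : Finset (Equiv.Perm (Fin 2))) = {1, Equiv.swap 0 1} := by decide
    have hv' : (v : ℂ) * k 0 = Real.arccos t := by exact_mod_cast hv
    have hc : Complex.cos (Real.arccos t : ℝ) = t := by
      rw [← Complex.ofReal_cos, Real.cos_arccos (abs_le.1 ht).1 (abs_le.1 ht).2]
    have r := Complex.two_cos ((Real.arccos t : ℝ) : ℂ)
    unfold symb
    rw [hU, Finset.sum_pair (by decide)]
    simp only [Fin.prod_univ_two, Equiv.Perm.coe_one, id, Equiv.swap_apply_left,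
      Equiv.swap_apply_right, Matrix.cons_val_zero, Matrix.cons_val_one,
      ← Complex.exp_int_mul, one_zpow, mul_one, hs]
    have e1 : (k 0 : ℂ) * ((v : ℂ) * Complex.I) = (Real.arccos t : ℝ) * Complex.I := by
      rw [← hv']; ring
    have e2 : ((-k 0 : ℤ) : ℂ) * ((v : ℂ) * Complex.I)
        = -((Real.arccos t : ℝ) : ℂ) * Complex.I := by
      rw [← hv']; push_cast; ring
    rw [e1, e2, ← r, hc]
    simp only [Nat.factorial, Nat.succ_eq_add_one]
    push_cast
    ring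

/-- Character values. -/
noncomputable def E {n : ℕ} (o : ℂ) (a : Idx n) (t : Fin n → ℤ) : ℂ := ∏ i, (o ^ a i) ^ t i

lemma E_sum {n N : ℕ} (o : ℂ) (ho : IsPrimitiveRoot o N) (t : Fin n → ℤ)
    (ht : ∀ i, (t i).natAbs < N) :
    ∑ a ∈ Fintype.piFinset (fun _ : Fin n => range N), E o a t
      = if ∀ i, t i = 0 then (N : ℂ) ^ n else 0 := by
  unfold E
  rw [← Finset.prod_univ_sum (fun _ : Fin n => range N) (fun i b => (o ^ b) ^ t i)]
  split_ifs with h
  · simp [h]
  · push Not at h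
    obtain ⟨i, hi⟩ := h
    refine Finset.prod_eq_zero (Finset.mem_univ i) ?_
    have e : ∀ b : ℕ, (o ^ b) ^ t i = (o ^ t i) ^ b := by
      intro b
      rw [← zpow_natCast, ← zpow_mul, mul_comm, zpow_mul, zpow_natCast]
    simp only [e]
    have h1 : o ^ t i ≠ 1 := by
      rw [Ne, ho.zpow_eq_one_iff_dvd]
      intro hd
      have := Int.natAbs_le_of_dvd_ne_zero hd hi
      have := ht i
      omega
    rw [geom_sum_eq h1, ← e, ho.pow_eq_one]
    simp

lemma four {n N : ℕ} (hN : 0 < N) (o : ℂ) (ho : IsPrimitiveRoot o N) (k : Fin n → ℤ)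
    (A B : Finset (Idx n)) (u v : Idx n → ℂ)
    (h : ∀ y ∈ A, ∀ x ∈ B, ∀ i, (k i + y i - x i).natAbs < N) :
    ∑ a ∈ Fintype.piFinset (fun _ : Fin n => range N),
      E o a k * ((∑ y ∈ A, u y * E o a (fun i => y i)) *
        (starRingEnd ℂ) (∑ x ∈ B, v x * E o a (fun i => x i)))
      = (N : ℂ) ^ n * ∑ x ∈ B, (∑ y ∈ A, if ∀ i, k i + y i - x i = 0 then u y else 0) *
        (starRingEnd ℂ) (v x) := by
  have h1 : ‖o‖ = 1 := ho.norm'_eq_one hN.ne'
  have h0 : o ≠ 0 := fun h => by simp [h] at h1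
  have hc : (starRingEnd ℂ) o = o⁻¹ := (Complex.inv_eq_conj h1).symm
  have e : ∀ (a y x : Idx n), E o a k * (E o a (fun i => y i) *
      (starRingEnd ℂ) (E o a (fun i => x i))) = E o a (fun i => k i + y i - x i) := by
    intro a y x
    unfold E
    rw [map_prod, ← Finset.prod_mul_distrib, ← Finset.prod_mul_distrib]
    refine Finset.prod_congr rfl fun i _ => ?_
    have : o ^ a i ≠ 0 := pow_ne_zero _ h0
    beta_reduce
    rw [map_zpow₀, map_pow, hc, inv_pow, inv_zpow', sub_eq_add_neg, zpow_add₀ this,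
      zpow_add₀ this, mul_assoc]
  simp only [map_sum, Finset.sum_mul, Finset.mul_sum]
  rw [Finset.sum_comm]
  refine Finset.sum_congr rfl fun x hx => ?_
  rw [Finset.sum_comm]
  refine Finset.sum_congr rfl fun y hy => ?_
  have : ∀ a : Idx n, E o a k * (u y * E o a (fun i => y i) *
      (starRingEnd ℂ) (v x * E o a (fun i => x i)))
      = u y * (starRingEnd ℂ) (v x) * E o a (fun i => k i + y i - x i) := by
    intro a
    rw [← e, map_mul]; ring
  simp only [this]
  rw [← Finset.mul_sum, E_sum o ho _ (h y hy x hx)]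
  split_ifs <;> ring

lemma pick {n : ℕ} (k : Fin n → ℤ) (f : Idx n → ℂ) (M K : ℕ) (hK : ∀ i, (k i).natAbs ≤ K)
    (x : Idx n) (hx : ∀ i, x i < M) :
    (∑ y ∈ Fintype.piFinset (fun _ : Fin n => range (M + K)),
      if ∀ i, k i + y i - x i = 0 then f y else 0) = shift k f x := by
  unfold shift
  split_ifs with h
  · rw [Finset.sum_eq_single (fun i => ((x i : ℤ) - k i).toNat)]
    · rw [if_pos (fun i => by have := h i; beta_reduce; omega)]
    · intro y _ hy
      refine if_neg fun h2 => hy ?_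
      funext i
      have := h2 i
      omega
    · intro h2
      exfalso
      refine h2 (Fintype.mem_piFinset.2 fun i => Finset.mem_range.2 ?_)
      have := hx i
      have := hK i
      omega
  · refine Finset.sum_eq_zero fun y _ => if_neg fun h2 => h fun i => ?_
    have := h2 i
    omega

lemma disc_le {n : ℕ} (k : Fin n → ℤ) (c : ℂ) (r : ℝ)
    (hr : ∀ w : Fin n → ℂ, (∀ i, ‖w i‖ = 1) → ‖symb k w - c‖ ≤ r)
    (f : Idx n → ℂ) (hf : Summable fun x => ‖f x‖ ^ 2) (s : Finset (Idx n)) :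
    ∑ x ∈ s, ‖avg k f x - c * f x‖ ^ 2 ≤ r ^ 2 * sqn f := by
  classical
  obtain ⟨K, hK⟩ : ∃ K : ℕ, ∀ i, (k i).natAbs ≤ K :=
    ⟨∑ i, (k i).natAbs, fun i => Finset.single_le_sum (f := fun i => (k i).natAbs)
      (fun _ _ => Nat.zero_le _) (Finset.mem_univ i)⟩
  obtain ⟨M, hM⟩ : ∃ M : ℕ, ∀ x ∈ s, ∀ i, x i < M := by
    refine ⟨∑ x ∈ s, ∑ i, x i + 1, fun x hx i => Nat.lt_succ_of_le ?_⟩
    exact (Finset.single_le_sum (f := fun i => x i) (fun _ _ => Nat.zero_le _)
      (Finset.mem_univ i)).trans (Finset.single_le_sum (f := fun x : Idx n => ∑ i, x i)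
        (fun _ _ => Nat.zero_le _) hx)
  obtain ⟨N, hN⟩ : ∃ N, N = M + 2 * K + 1 := ⟨_, rfl⟩
  have hN0 : 0 < N := by omega
  obtain ⟨o, ho⟩ : ∃ o : ℂ, IsPrimitiveRoot o N := ⟨_, Complex.isPrimitiveRoot_exp N hN0.ne'⟩
  have h1 : ‖o‖ = 1 := ho.norm'_eq_one hN0.ne'
  set A := Fintype.piFinset (fun _ : Fin n => range (M + K)) with hA
  have hAm : ∀ y ∈ A, ∀ i, y i < M + K := fun y hy i =>
    Finset.mem_range.1 (Fintype.mem_piFinset.1 hy i)
  obtain ⟨h, hh⟩ : ∃ h : Idx n → ℂ, h = fun x => avg k f x - c * f x := ⟨_, rfl⟩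
  obtain ⟨F, hF⟩ : ∃ F : Idx n → ℂ, F = fun a => ∑ y ∈ A, f y * E o a (fun i => y i) := ⟨_, rfl⟩
  obtain ⟨H, hH⟩ : ∃ H : Idx n → ℂ, H = fun a => ∑ y ∈ s, h y * E o a (fun i => y i) := ⟨_, rfl⟩
  set G := Fintype.piFinset (fun _ : Fin n => range N) with hG
  have pars : ∀ (B : Finset (Idx n)) (u : Idx n → ℂ), (∀ y ∈ B, ∀ i, y i < M + K) →
      ∑ a ∈ G, ‖∑ y ∈ B, u y * E o a (fun i => y i)‖ ^ 2 = (N : ℝ) ^ n * ∑ y ∈ B, ‖u y‖ ^ 2 := by
    intro B u hB
    have a := four hN0 o ho 0 B B u u (fun y hy x hx i => by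
      have := hB y hy i; have := hB x hx i; simp only [Pi.zero_apply]; omega)
    have b : ∀ x ∈ B, (∑ y ∈ B, if ∀ i, (0 : Fin n → ℤ) i + y i - x i = 0 then u y else 0)
        = u x := by
      intro x hx
      rw [Finset.sum_eq_single x]
      · simp
      · intro y _ hy
        refine if_neg fun h2 => hy ?_
        funext i
        have := h2 i
        simp only [Pi.zero_apply] at this
        omega
      · intro h2; exact absurd hx h2
    have b2 : ∑ x ∈ B, (∑ y ∈ B, if ∀ i, (0 : Fin n → ℤ) i + y i - x i = 0 then u y else 0) *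
        (starRingEnd ℂ) (u x) = ∑ x ∈ B, u x * (starRingEnd ℂ) (u x) :=
      Finset.sum_congr rfl (fun x hx => by rw [b x hx])
    rw [b2] at a
    have e0 : ∀ a : Idx n, E o a 0 = 1 := fun a => by simp [E]
    simp only [e0, one_mul, Complex.mul_conj'] at a
    exact_mod_cast a
  have sh : ∀ k' : Fin n → ℤ, (∀ i, (k' i).natAbs ≤ K) →
      ∑ a ∈ G, E o a k' * (F a * (starRingEnd ℂ) (H a))
        = (N : ℂ) ^ n * ∑ x ∈ s, shift k' f x * (starRingEnd ℂ) (h x) := by
    intro k' hk'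
    have a := four hN0 o ho k' A s f h (fun y hy x hx i => by
      have := hAm y hy i; have := hM x hx i; have := hk' i; omega)
    rw [hF, hH]
    refine a.trans (congrArg _ (Finset.sum_congr rfl fun x hx => ?_))
    rw [pick k' f M K hk' x (hM x hx)]
  have tot : ∑ a ∈ G, (symb k (fun i => o ^ a i) - c) * (F a * (starRingEnd ℂ) (H a))
      = (N : ℂ) ^ n * ∑ x ∈ s, h x * (starRingEnd ℂ) (h x) := by
    have s0 := sh 0 (fun i => by simp)
    have e0 : ∀ a : Idx n, E o a 0 = 1 := fun a => by simp [E]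
    have e1 : ∀ x, shift 0 f x = f x := fun x => by simp [shift]
    simp only [e0, e1, one_mul] at s0
    have s1 : ∑ a ∈ G, symb k (fun i => o ^ a i) * (F a * (starRingEnd ℂ) (H a))
        = (N : ℂ) ^ n * ∑ x ∈ s, avg k f x * (starRingEnd ℂ) (h x) := by
      have l : ∀ a : Idx n, symb k (fun i => o ^ a i) * (F a * (starRingEnd ℂ) (H a))
          = (1 / (n.factorial : ℂ)) * ∑ q : Equiv.Perm (Fin n),
            E o a (fun i => k (q i)) * (F a * (starRingEnd ℂ) (H a)) := by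
        intro a
        rw [← Finset.sum_mul, ← mul_assoc (1 / (n.factorial : ℂ))]; rfl
      have l2 : ∀ x : Idx n, avg k f x * (starRingEnd ℂ) (h x)
          = (1 / (n.factorial : ℂ)) * ∑ q : Equiv.Perm (Fin n),
            shift (fun i => k (q i)) f x * (starRingEnd ℂ) (h x) := by
        intro x
        rw [← Finset.sum_mul, ← mul_assoc (1 / (n.factorial : ℂ))]; rfl
      simp only [l, l2]
      rw [← Finset.mul_sum, ← Finset.mul_sum, Finset.sum_comm, Finset.sum_comm (s := s),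
        Finset.sum_congr rfl (fun q _ => sh (fun i => k (q i)) (fun i => hK (q i))),
        ← Finset.mul_sum]
      ring
    simp only [sub_mul, Finset.sum_sub_distrib]
    rw [s1, ← Finset.mul_sum, s0, mul_left_comm, ← mul_sub, Finset.mul_sum (a := c),
      ← Finset.sum_sub_distrib]
    refine congrArg _ (Finset.sum_congr rfl fun x _ => ?_)
    have : h x = avg k f x - c * f x := by rw [hh]
    rw [← mul_assoc, ← sub_mul, ← this]
  have tn : (N : ℝ) ^ n * ∑ x ∈ s, ‖h x‖ ^ 2 ≤ ∑ a ∈ G, (r ^ 2 * ‖F a‖ ^ 2 + ‖H a‖ ^ 2) / 2 := by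
    simp only [Complex.mul_conj'] at tot
    have a : ((((N : ℝ) ^ n * ∑ x ∈ s, ‖h x‖ ^ 2 : ℝ)) : ℂ)
        = ∑ a ∈ G, (symb k (fun i => o ^ a i) - c) * (F a * (starRingEnd ℂ) (H a)) := by
      rw [tot]; push_cast; rfl
    have b := congrArg norm a
    rw [Complex.norm_real, Real.norm_eq_abs] at b
    refine (le_abs_self _).trans (b.le.trans ((norm_sum_le _ _).trans
      (Finset.sum_le_sum fun a _ => ?_)))
    rw [norm_mul, norm_mul, Complex.norm_conj]
    have d := hr (fun i => o ^ a i) (fun i => by simp [h1])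
    have := mul_le_mul_of_nonneg_right d (mul_nonneg (norm_nonneg (F a)) (norm_nonneg (H a)))
    nlinarith [sq_nonneg (r * ‖F a‖ - ‖H a‖)]
  rw [← Finset.sum_div, Finset.sum_add_distrib, ← Finset.mul_sum] at tn
  have p1 := pars A f hAm
  have p2 := pars s h (fun y hy i => by have := hM y hy i; omega)
  rw [hF, hH] at tn
  simp only at tn
  rw [p1, p2] at tn
  have hNn : (0 : ℝ) < (N : ℝ) ^ n := by positivity
  have p3 : ∑ y ∈ A, ‖f y‖ ^ 2 ≤ sqn f := hf.sum_le_tsum _ (fun _ _ => by positivity)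
  have p4 : ∑ x ∈ s, ‖h x‖ ^ 2 ≤ r ^ 2 * ∑ y ∈ A, ‖f y‖ ^ 2 := by
    refine le_of_mul_le_mul_left ?_ hNn
    nlinarith
  rw [hh] at p4
  exact p4.trans (mul_le_mul_of_nonneg_left p3 (by positivity))

lemma res_disc {n : ℕ} (χ : Equiv.Perm (Fin n) → ℂ) (k : Fin n → ℤ) (c : ℂ) (r : ℝ)
    (hr : ∀ w : Fin n → ℂ, (∀ i, ‖w i‖ = 1) → ‖symb k w - c‖ ≤ r) (z : ℂ)
    (hz : ¬ Res χ k z) : ‖z - c‖ ≤ r := by
  have hr0 : 0 ≤ r := (norm_nonneg _).trans (hr 1 (by simp))
  have h : z ∈ spectrum ℂ (T k) := by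
    by_contra h
    exact hz (res_of χ k z h)
  have h2 : z - c ∈ spectrum ℂ (T k - algebraMap ℂ _ c) := by
    rw [← spectrum.sub_singleton_eq]
    exact Set.sub_mem_sub h rfl
  have b : ‖T k - algebraMap ℂ _ c‖ ≤ r := by
    refine ContinuousLinearMap.opNorm_le_bound _ hr0 fun f => ?_
    refine (pow_le_pow_iff_left₀ (norm_nonneg _) (by positivity) two_ne_zero).1 ?_
    rw [mul_pow, norm2, norm2]
    have e : ∀ x, ((T k - algebraMap ℂ _ c) f) x = avg k f x - c * f x := by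
      intro x
      simp only [Algebra.algebraMap_eq_smul_one]
      rfl
    unfold sqn
    simp only [e]
    have m := disc_le k c r hr f ((mem2 _).1 f.2)
    exact (summable_of_sum_le (fun _ => by positivity) m).tsum_le_of_sum_le m
  have a := spectrum.subset_closedBall_norm_mul (𝕜 := ℂ) _ h2
  rw [mem_closedBall_zero_iff] at a
  have d : ‖(1 : lp (fun _ : Idx n => ℂ) 2 →L[ℂ] lp (fun _ : Idx n => ℂ) 2)‖ ≤ 1 :=
    ContinuousLinearMap.norm_id_le
  nlinarith [norm_nonneg (T k - algebraMap ℂ _ c)]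

lemma symb_real {n : ℕ} (k : Fin n → ℤ) (p : Equiv.Perm (Fin n)) (hp : ∀ i, k (p i) = -k i)
    (w : Fin n → ℂ) (hw : ∀ i, ‖w i‖ = 1) : (symb k w).im = 0 := by
  rw [← Complex.conj_eq_iff_im]
  unfold symb
  rw [map_mul, map_sum, ← Equiv.sum_comp (Equiv.mulLeft p)]
  congr 1
  · simp
  · refine Finset.sum_congr rfl fun q _ => ?_
    rw [map_prod]
    refine Finset.prod_congr rfl fun i _ => ?_
    have : k ((Equiv.mulLeft p q) i) = -k (q i) := hp (q i)
    rw [this, map_zpow₀, ← Complex.inv_eq_conj (hw i), inv_zpow', neg_neg]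

lemma sa_range {n : ℕ} (χ : Equiv.Perm (Fin n) → ℂ) (k : Fin n → ℤ) (p : Equiv.Perm (Fin n))
    (hp : ∀ i, k (p i) = -k i) (z : ℂ) (hz : ¬ Res χ k z) :
    ∃ w : Fin n → ℂ, (∀ i, ‖w i‖ = 1) ∧ symb k w = z := by
  have him : z.im = 0 := by
    by_contra h
    exact hz (res_im χ k p hp z h)
  obtain ⟨U, hU⟩ : ∃ U : Set (Fin n → ℂ), U = Set.pi Set.univ fun _ => Metric.sphere (0 : ℂ) 1 :=
    ⟨_, rfl⟩
  have mU : ∀ w, w ∈ U ↔ ∀ i, ‖w i‖ = 1 := by intro w; simp [hU]
  have cU : IsCompact U := hU ▸ isCompact_univ_pi fun _ => isCompact_sphere _ _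
  have pU : IsPreconnected U := hU ▸ isPreconnected_univ_pi fun _ =>
    isPreconnected_sphere (by simp) _ _
  have ct : ContinuousOn (fun w => (symb k w).re) U := by
    refine Complex.continuous_re.comp_continuousOn ?_
    unfold symb
    refine continuousOn_const.mul (continuousOn_finsetSum _ fun q _ =>
      continuousOn_finsetProd _ fun i _ => ?_)
    exact (continuous_apply i).continuousOn.zpow₀ _ fun w hw => Or.inl fun h => by
      simpa [h] using (mU w).1 hw i
  have ne : U.Nonempty := ⟨1, (mU _).2 (by simp)⟩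
  obtain ⟨a, ha, ha'⟩ := cU.exists_isMinOn ne ct
  obtain ⟨b, hb, hb'⟩ := cU.exists_isMaxOn ne ct
  have key := res_disc χ k ((((symb k a).re + (symb k b).re) / 2 : ℝ) : ℂ)
    (((symb k b).re - (symb k a).re) / 2) (fun w hw => by
      have e : symb k w = ((symb k w).re : ℂ) :=
        Complex.ext (by simp) (by simpa using symb_real k p hp w hw)
      have h1 : (symb k a).re ≤ (symb k w).re := ha' ((mU w).2 hw)
      have h2 : (symb k w).re ≤ (symb k b).re := hb' ((mU w).2 hw)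
      rw [e, ← Complex.ofReal_sub, Complex.norm_real, Real.norm_eq_abs, abs_le]
      constructor <;> linarith) z hz
  have e : z = (z.re : ℂ) := Complex.ext (by simp) (by simpa using him)
  rw [e, ← Complex.ofReal_sub, Complex.norm_real, Real.norm_eq_abs, abs_le] at key
  obtain ⟨w, hw, hw'⟩ := pU.intermediate_value ha hb ct
    (show z.re ∈ Set.Icc _ _ from ⟨by linarith [key.1], by linarith [key.2]⟩)
  exact ⟨w, (mU w).1 hw, Complex.ext hw' (by rw [him, symb_real k p hp w ((mU w).1 hw)])⟩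

lemma main {n : ℕ} (χ : Equiv.Perm (Fin n) → ℂ) (k : Fin n → ℤ) (S : Finset (Idx n))
    (F : Idx n → ℂ) (hS : ∀ y, y ∉ S → F y = 0) (hW : 0 < ∑ y ∈ S, ‖F y‖ ^ 2)
    (hF : ∀ (y : Idx n) (p : Equiv.Perm (Fin n)), F (fun i => y (p i)) = χ p * F y)
    (hP : ∀ y, F y ≠ 0 → ∃ s : Equiv.Perm (Fin n), ∀ i, y i = (s i : ℕ)) :
    (∀ f, InH χ f → InH χ (avg k f) ∧ sqn (avg k f) ≤ sqn f) ∧
    (∀ c : ℝ, c < 1 → ∃ f, InH χ f ∧ 0 < sqn f ∧ c * sqn f ≤ sqn (avg k f)) ∧
    (∑ i, k i ≠ 0 → ∀ z : ℂ, ¬ Res χ k z ↔ ‖z‖ ≤ 1) ∧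
    (∀ w : Fin n → ℂ, (∀ i, ‖w i‖ = 1) → ¬ Res χ k (symb k w)) ∧
    (∀ z : ℂ, ¬ Res χ k z → ‖z‖ ≤ 1) ∧
    ((∃ p : Equiv.Perm (Fin n), ∀ i, k (p i) = -k i) → ∀ z : ℂ, ¬ Res χ k z → z.im = 0) := by
  have A : ∀ w : Fin n → ℂ, (∀ i, ‖w i‖ = 1) → ¬ Res χ k (symb k w) := by
    rintro w hw ⟨-, C, hC⟩
    obtain ⟨L, W, h1, h2, -, h4⟩ := approx k S F hS hW hP w hw (1 / (2 * (|C| + 1)))
      (by positivity)
    refine fin_contra C _ _ h2 (hC _ ⟨h1, fun p x => ?_⟩) h4
      (tsum_nonneg fun _ => by positivity)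
    unfold tw
    rw [tw_perm L W p x, hF (fun i => x i / L) p, mul_assoc]
  have B : ∀ z : ℂ, ¬ Res χ k z → ‖z‖ ≤ 1 := fun z h =>
    not_lt.1 fun hz => h (res_out χ k z hz)
  refine ⟨fun f hf => ⟨avg_InH χ k f hf,
    (avg_summable k f hf.1).tsum_le_of_sum_le (avg_le k f hf.1)⟩, fun c hc => ?_,
    fun hd z => ⟨B z, fun hz => ?_⟩, A, B, ?_⟩
  · obtain ⟨L, h1, h2, h3⟩ := lower k S F hS hW c hc
    exact ⟨_, ⟨h1, fun p x => hF (fun i => x i / L) p⟩, h2, h3⟩
  · rcases hz.lt_or_eq with hz | hz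
    · exact notres χ k hd S F hS hW hF z hz
    · obtain ⟨w, hw, rfl⟩ := circ k hd z hz
      exact A w hw
  · rintro ⟨p, hp⟩ z h
    by_contra hz
    exact h (res_im χ k p hp z hz)

lemma main' {n : ℕ} (χ : Equiv.Perm (Fin n) → ℂ) (k : Fin n → ℤ)
    (hχ : (χ = fun _ => 1) ∨ χ = fun p => ((Equiv.Perm.sign p : ℤ) : ℂ)) :
    (∀ f, InH χ f → InH χ (avg k f) ∧ sqn (avg k f) ≤ sqn f) ∧
    (∀ c : ℝ, c < 1 → ∃ f, InH χ f ∧ 0 < sqn f ∧ c * sqn f ≤ sqn (avg k f)) ∧
    (∑ i, k i ≠ 0 → ∀ z : ℂ, ¬ Res χ k z ↔ ‖z‖ ≤ 1) ∧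
    (∀ w : Fin n → ℂ, (∀ i, ‖w i‖ = 1) → ¬ Res χ k (symb k w)) ∧
    (∀ z : ℂ, ¬ Res χ k z → ‖z‖ ≤ 1) ∧
    ((∃ p : Equiv.Perm (Fin n), ∀ i, k (p i) = -k i) → ∀ z : ℂ, ¬ Res χ k z → z.im = 0) := by
  classical
  have hid : (fun i : Fin n => (i : ℕ)) ∈ Fintype.piFinset fun _ : Fin n => range n :=
    Fintype.mem_piFinset.2 fun i => Finset.mem_range.2 i.2
  have hW1 : 0 < ∑ y ∈ Fintype.piFinset fun _ : Fin n => range n, ‖D y‖ ^ 2 :=
    Finset.sum_pos' (fun _ _ => by positivity) ⟨_, hid, by rw [D_id]; simp⟩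
  have hW2 : 0 < ∑ y ∈ Fintype.piFinset fun _ : Fin n => range n, ‖D y ^ 2‖ ^ 2 :=
    Finset.sum_pos' (fun _ _ => by positivity) ⟨_, hid, by rw [D_id]; simp⟩
  have hsq : ∀ (y : Idx n) (p : Equiv.Perm (Fin n)), D (fun i => y (p i)) ^ 2 = D y ^ 2 := by
    intro y p
    rw [D_perm, mul_pow]
    rcases Int.units_eq_one_or (Equiv.Perm.sign p) with h | h <;> simp [h]
  rcases hχ with rfl | rfl
  · exact main _ k _ (fun y => D y ^ 2) (fun y hy => by simp [D_zero y hy]) hW2
      (fun y p => by rw [one_mul]; exact hsq y p)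
      (fun y hy => D_ne y (fun h => hy (by simp [h])))
  · exact main _ k _ D D_zero hW1 D_perm D_ne

theorem result :
    (∀ n : ℕ, 2 ≤ n → ∀ k : Fin n → ℤ, (∀ i, k i ≠ 0) → ∀ χ : Equiv.Perm (Fin n) → ℂ,
      ((χ = fun _ => 1) ∨ χ = fun p => ((Equiv.Perm.sign p : ℤ) : ℂ)) →
      (∀ f, InH χ f → InH χ (avg k f) ∧ sqn (avg k f) ≤ sqn f) ∧
      (∀ c : ℝ, c < 1 → ∃ f, InH χ f ∧ 0 < sqn f ∧ c * sqn f ≤ sqn (avg k f)) ∧
      (∑ i, k i ≠ 0 → ∀ z : ℂ, ¬ Res χ k z ↔ ‖z‖ ≤ 1) ∧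
      (∀ w : Fin n → ℂ, (∀ i, ‖w i‖ = 1) → ¬ Res χ k (symb k w)) ∧
      (∀ (c : ℂ) (r : ℝ), (∀ w : Fin n → ℂ, (∀ i, ‖w i‖ = 1) → ‖symb k w - c‖ ≤ r) →
        ∀ z : ℂ, ¬ Res χ k z → ‖z - c‖ ≤ r) ∧
      ((∃ p : Equiv.Perm (Fin n), ∀ i, k (p i) = -k i) → ∀ z : ℂ,
        ¬ Res χ k z ↔ ∃ w : Fin n → ℂ, (∀ i, ‖w i‖ = 1) ∧ symb k w = z)) ∧
    (∀ k : Fin 2 → ℤ, (∀ i, k i ≠ 0) → ∀ χ : Equiv.Perm (Fin 2) → ℂ,
      ((χ = fun _ => 1) ∨ χ = fun p => ((Equiv.Perm.sign p : ℤ) : ℂ)) →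
      ∑ i, k i = 0 → ∀ z : ℂ, ¬ Res χ k z ↔ z.im = 0 ∧ |z.re| ≤ 1) := by
  refine ⟨fun n _ k _ χ hχ => ?_, fun k hk χ hχ hd z => ?_⟩
  · obtain ⟨a, b, c, d, -, -⟩ := main' χ k hχ
    refine ⟨a, b, c, d, res_disc χ k, ?_⟩
    rintro ⟨p, hp⟩ z
    refine ⟨sa_range χ k p hp z, ?_⟩
    rintro ⟨w, hw, rfl⟩
    exact d w hw
  obtain ⟨-, -, -, A, B, C⟩ := main' χ k hχ
  rw [Fin.sum_univ_two] at hd
  constructor
  · intro h
    refine ⟨C ⟨Equiv.swap 0 1, fun i => ?_⟩ z h, (Complex.abs_re_le_norm z).trans (B z h)⟩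
    fin_cases i
    · simp; omega
    · simp; omega
  · rintro ⟨h1, h2⟩
    obtain ⟨w, hw, e⟩ := seg k (hk 0) (by omega) z.re h2
    have : z = symb k w := by
      rw [e]; exact Complex.ext (by simp) (by simpa using h1)
    rw [this]
    exact A w hw

end Pool.Agent.Results.MP_0b6044_an.Norm
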